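import Pool.Agent.MWGN.StmtsC

/-! # Row TLF of squad MWGN (helper39): restriction of the tails to a part of the indices -/

set_option autoImplicit false

namespace Pool.Agent.MWGN.H39

open Pool.Agent.MWGN

theorem flatMap_update (S L : ℕ → List ℕ) (i : ℕ) (A : List ℕ) {l : List ℕ} (h : i ∉ l) :
    l.flatMap (fun j => Function.update S i A j ++ L j) = l.flatMap (fun j => S j ++ L j) := by
  induction l with
  | nil => rfl
  | cons a l ih =>
    rw [List.flatMap_cons, List.flatMap_cons, ih (fun hm => h (List.mem_cons_of_mem _ hm)),
      Function.update_of_ne (fun he : a = i => h (by rw [he]; exact List.mem_cons_self))]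

theorem tlf : TlfStmt := by
  intro τ S L p
  induction τ with
  | nil =>
    intro _
    exact ⟨S, [], rfl⟩
  | cons i τ ih =>
    intro hn
    obtain ⟨S', R, h⟩ := ih (List.nodup_cons.1 hn).2
    have hi : i ∉ τ := (List.nodup_cons.1 hn).1
    by_cases hp : p i = true
    · refine ⟨Function.update S' i (S i), R, ?_⟩
      rw [List.filter_cons_of_pos hp, List.flatMap_cons, List.flatMap_cons,
        flatMap_update S' L i (S i) (fun hm => hi (List.mem_filter.1 hm).1),
        Function.update_self, h]
      simp only [List.append_assoc]
    · rw [List.filter_cons_of_neg hp, List.flatMap_cons, h]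
      rcases hf : τ.filter p with _ | ⟨j, τ'⟩
      · exact ⟨S', S i ++ L i ++ R, rfl⟩
      · have hnd : (j :: τ').Nodup := by
          rw [← hf]
          exact (List.nodup_cons.1 hn).2.filter _
        refine ⟨Function.update S' j (S i ++ L i ++ S' j), R, ?_⟩
        rw [List.flatMap_cons, List.flatMap_cons,
          flatMap_update S' L j _ (List.nodup_cons.1 hnd).1, Function.update_self]
        simp only [List.append_assoc]

end Pool.Agent.MWGN.H39
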